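import Pool.Agent.Y217.PB.Stm

/-! Project PB, task F: the Euler inequality. -/

set_option autoImplicit false

universe u

namespace Pool.Agent.Y917.PB

open Set Topology Metric
open Pool.Agent.Helper775.Surf Pool.Agent.Helper775.Clo
open Pool.Agent.Y217.PB
open scoped InnerProductSpace

theorem triv_zero {M : Type u} [TopologicalSpace M] (Z : Set M) :
    Triv Z (0 : M → M → ZMod 2) (0 : M → ZMod 2) := by
  refine fun x _ => ⟨Set.univ, Filter.univ_mem, fun a _ b _ => ?_⟩
  show (0 : ZMod 2) = 0 + 0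
  rw [add_zero]

theorem triv_smul {M : Type u} [TopologicalSpace M] {Z : Set M} {t : M → M → ZMod 2}
    {s : M → ZMod 2} (h : Triv Z t s) (c : ZMod 2) : Triv Z (c • t) (c • s) := by
  have hc : ∀ c : ZMod 2, c = 0 ∨ c = 1 := by decide
  rcases hc c with rfl | rfl
  · rw [zero_smul, zero_smul]; exact triv_zero Z
  · rw [one_smul, one_smul]; exact h

theorem triv_sum {M : Type u} [TopologicalSpace M] {κ : Type} {Z : Set M}
    {w : κ → M → M → ZMod 2} {s : κ → M → ZMod 2} (c : κ → ZMod 2) (F : Finset κ)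
    (h : ∀ k ∈ F, Triv Z (w k) (s k)) :
    Triv Z (∑ k ∈ F, c k • w k) (∑ k ∈ F, c k • s k) := by
  classical
  induction F using Finset.induction_on with
  | empty => rw [Finset.sum_empty, Finset.sum_empty]; exact triv_zero Z
  | insert a F ha ih =>
    rw [Finset.sum_insert ha, Finset.sum_insert ha]
    exact (triv_smul (h a (Finset.mem_insert_self _ _)) _).add
      (ih fun k hk => h k (Finset.mem_insert_of_mem hk))

theorem z2_key : ∀ m0 m1 x0 x1 y0 y1 c : ZMod 2, x0 + y0 ≠ x1 + y1 →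
    m0 + c * (x0 + y0) = m1 + c * (x1 + y1) → c = m0 + m1 := by decide

/-- the kernel: a combination which is null near the graph is a coboundary of the graph -/
theorem ker_cob (hA : JArc.{u}) {M : Type u} [TopologicalSpace M] [CompactSpace M] [T2Space M]
    [TopologicalSpace.MetrizableSpace M] {ι κ : Type} [Fintype κ] [DecidableEq κ]
    {Γ : FGraph M ι κ} (hΓ : Γ.Good) {w : κ → M → M → ZMod 2} (hw : ∀ k, Γ.Jump k (w k))
    {c : κ → ZMod 2} (hc : Null Γ.pts (∑ k, c k • w k)) :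
    ∃ τ : ι → ZMod 2, ∀ k, c k = τ (Γ.i0 k) + τ (Γ.i1 k) := by
  obtain ⟨σ, hσ⟩ := hc
  choose s s' h1 h2 h3 using hw
  have hAb : ∀ a b : κ, a ≠ b → Γ.A b ⊆ Γ.off a := by
    intro a b hab x hx
    refine Or.inr ?_
    simp only [mem_iUnion]
    exact ⟨b, fun h => hab h.symm, hx⟩
  have hZa : ∀ i a, Γ.Z i ⊆ Γ.off a := by
    intro i a x hx
    exact Or.inl (mem_iUnion.2 ⟨i, hx⟩)
  have hAG : ∀ b, Γ.A b ⊆ Γ.pts := fun b x hx => Or.inr (mem_iUnion.2 ⟨b, hx⟩)
  have hZG : ∀ i, Γ.Z i ⊆ Γ.pts := fun i x hx => Or.inl (mem_iUnion.2 ⟨i, hx⟩)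
  obtain ⟨μ, hμ⟩ : ∃ μ : M → ZMod 2, μ = ∑ k, c k • s k := ⟨_, rfl⟩
  -- vertices
  have hv : ∀ i, ∃ t : ZMod 2, ∀ x ∈ Γ.Z i, σ x + μ x = t := by
    intro i
    refine triv_uniq (hΓ.fat i).conn (hσ.mono (hZG i)) ?_
    rw [hμ]
    exact triv_sum c Finset.univ fun k _ => (h1 k).mono (hZa i k)
  choose τ hτ using hv
  refine ⟨τ, fun b => ?_⟩
  -- edges
  obtain ⟨hpq, hAc, -⟩ := hA M (Γ.A b) (Γ.p0 b) (Γ.p1 b) (hΓ.arc b)
  have hb : Triv (Γ.A b) (∑ k, c k • w k) (∑ k, c k • Function.update s b (s' b) k) := by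
    refine triv_sum c Finset.univ fun k _ => ?_
    by_cases hk : k = b
    · subst hk
      rw [Function.update_self]
      exact h2 k
    · rw [Function.update_of_ne hk]
      exact (h1 k).mono (hAb k b hk)
  obtain ⟨t, ht⟩ := triv_uniq hAc (hσ.mono (hAG b)) hb
  have hval : ∀ x, (∑ k, c k • Function.update s b (s' b) k) x = μ x + c b * (s b x + s' b x) := by
    intro x
    rw [hμ, Finset.sum_apply, Finset.sum_apply, ← Finset.add_sum_erase _ _ (Finset.mem_univ b),
      ← Finset.add_sum_erase (a := b) Finset.univ (fun k => (c k • s k) x) (Finset.mem_univ b)]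
    have e : ∑ k ∈ Finset.univ.erase b, (c k • Function.update s b (s' b) k) x =
        ∑ k ∈ Finset.univ.erase b, (c k • s k) x := by
      refine Finset.sum_congr rfl fun k hk => ?_
      rw [Function.update_of_ne (Finset.ne_of_mem_erase hk)]
    rw [e, Function.update_self]
    simp only [Pi.smul_apply, smul_eq_mul]
    generalize (∑ k ∈ Finset.univ.erase b, c k * s k x) = r
    generalize s b x = p
    generalize s' b x = q
    generalize c b = d
    revert r p q d
    decide
  have e0 := ht _ (hΓ.arc b).p_mem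
  have e1 := ht _ (hΓ.arc b).q_mem
  rw [← e1, hval, hval] at e0
  have e2 := hτ _ _ (hΓ.m0 b)
  have e3 := hτ _ _ (hΓ.m1 b)
  rw [← add_assoc, ← add_assoc, e2, e3] at e0
  exact z2_key _ _ _ _ _ _ _ (h3 b) e0


/-- the coboundary map of the graph -/
def cob {M : Type u} {ι κ : Type} (Γ : FGraph M ι κ) : (ι → ZMod 2) →ₗ[ZMod 2] (κ → ZMod 2) where
  toFun τ k := τ (Γ.i0 k) + τ (Γ.i1 k)
  map_add' := by
    intro x y
    funext k
    show (x (Γ.i0 k) + y (Γ.i0 k)) + (x (Γ.i1 k) + y (Γ.i1 k)) =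
      (x (Γ.i0 k) + x (Γ.i1 k)) + (y (Γ.i0 k) + y (Γ.i1 k))
    ring
  map_smul' := by
    intro c x
    funext k
    show c * x (Γ.i0 k) + c * x (Γ.i1 k) = c * (x (Γ.i0 k) + x (Γ.i1 k))
    ring

theorem cob_rank {M : Type u} {ι κ : Type} [Fintype ι] [Nonempty ι] (Γ : FGraph M ι κ) :
    Module.finrank (ZMod 2) (LinearMap.range (cob Γ)) + 1 ≤ Fintype.card ι := by
  have h := LinearMap.finrank_range_add_finrank_ker (cob Γ)
  rw [Module.finrank_fintype_fun_eq_card] at h
  have h2 : 1 ≤ Module.finrank (ZMod 2) (LinearMap.ker (cob Γ)) := by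
    rw [Submodule.one_le_finrank_iff]
    intro hb
    have hm : (fun _ => 1 : ι → ZMod 2) ∈ LinearMap.ker (cob Γ) := by
      rw [LinearMap.mem_ker]
      funext k
      show (1 : ZMod 2) + 1 = 0
      decide
    rw [hb, Submodule.mem_bot] at hm
    obtain ⟨i⟩ := ‹Nonempty ι›
    have h1 : (1 : ZMod 2) = 0 := congrFun hm i
    exact absurd h1 (by decide)
  omega

theorem count_lin {V : Type} {Q : Type u} {E : Type u} [AddCommGroup V] [Module (ZMod 2) V]
    [AddCommGroup Q] [Module (ZMod 2) Q] [AddCommGroup E] [Module (ZMod 2) E]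
    [Module.Finite (ZMod 2) V] (θ : V →ₗ[ZMod 2] Q) (e : V →ₗ[ZMod 2] E)
    (R : Submodule (ZMod 2) Q) [Module.Finite (ZMod 2) R] (h : ∀ v, e v = 0 → θ v ∈ R) :
    Module.finrank (ZMod 2) V ≤ Module.finrank (ZMod 2) (LinearMap.range e) +
      Module.finrank (ZMod 2) R + Module.finrank (ZMod 2) (LinearMap.ker θ) := by
  have h1 := LinearMap.finrank_range_add_finrank_ker e
  have hr : ∀ v : LinearMap.ker e, (θ.domRestrict (LinearMap.ker e)) v ∈ R := by
    intro v
    exact h v.1 (LinearMap.mem_ker.1 v.2)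
  have h2 := LinearMap.finrank_range_add_finrank_ker
    (LinearMap.codRestrict R (θ.domRestrict (LinearMap.ker e)) hr)
  have h3 : Module.finrank (ZMod 2)
      (LinearMap.range (LinearMap.codRestrict R (θ.domRestrict (LinearMap.ker e)) hr)) ≤
      Module.finrank (ZMod 2) R := Submodule.finrank_le _
  have h4 : Module.finrank (ZMod 2)
      (LinearMap.ker (LinearMap.codRestrict R (θ.domRestrict (LinearMap.ker e)) hr)) ≤
      Module.finrank (ZMod 2) (LinearMap.ker θ) := by
    refine LinearMap.finrank_le_finrank_of_injective (f := LinearMap.codRestrict (LinearMap.ker θ)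
      ((LinearMap.ker e).subtype ∘ₗ
      (LinearMap.ker (LinearMap.codRestrict R (θ.domRestrict (LinearMap.ker e)) hr)).subtype) ?_) ?_
    · intro v
      rw [LinearMap.mem_ker]
      have := LinearMap.mem_ker.1 v.2
      exact congrArg Subtype.val this
    · intro v v' hv
      apply Subtype.ext
      apply Subtype.ext
      exact congrArg (fun z : LinearMap.ker θ => (z : V)) hv
  omega

theorem z2_sub {M : Type u} (a b : M → M → ZMod 2) : a - b = a + b := by
  funext x y
  show a x y - b x y = a x y + b x y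
  generalize a x y = p
  generalize b x y = q
  revert p q
  decide

/-- the first cohomology group is finite -/
theorem finite_H1 {M : Type u} [TopologicalSpace M] (h : FinH1 M) :
    Finite (↥(CG (univ : Set M)) ⧸ (NG (univ : Set M)).submoduleOf (CG (univ : Set M))) := by
  obtain ⟨R, hR, hRc, hRt⟩ := h
  have : Finite R := hR
  refine Finite.of_surjective (fun r : R => Submodule.Quotient.mk
    (p := (NG (univ : Set M)).submoduleOf (CG (univ : Set M))) ⟨r.1, hRc r.1 r.2⟩) ?_
  intro x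
  obtain ⟨⟨t, ht⟩, rfl⟩ := Submodule.Quotient.mk_surjective _ x
  obtain ⟨r, hr, hn⟩ := hRt t ht
  refine ⟨⟨r, hr⟩, ?_⟩
  show Submodule.Quotient.mk _ = Submodule.Quotient.mk _
  rw [Submodule.Quotient.eq]
  show r - t ∈ NG (univ : Set M)
  rw [z2_sub, add_comm]
  exact hn

/-- the classes near `G` which come from `M` -/
theorem rank_R {M : Type u} [TopologicalSpace M] (h : FinH1 M) (G : Set M) :
    Module.Finite (ZMod 2) (Submodule.map (NG G).mkQ (CG (univ : Set M))) ∧
    Module.finrank (ZMod 2) (Submodule.map (NG G).mkQ (CG (univ : Set M))) ≤ betti1 M := by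
  have := finite_H1 h
  have hle : (NG (univ : Set M)).submoduleOf (CG (univ : Set M)) ≤
      LinearMap.ker ((NG G).mkQ ∘ₗ (CG (univ : Set M)).subtype) := by
    intro x hx
    rw [LinearMap.mem_ker]
    show (NG G).mkQ x.1 = 0
    rw [Submodule.mkQ_apply, Submodule.Quotient.mk_eq_zero]
    have hx' : x.1 ∈ NG (univ : Set M) := hx
    exact Null.mono hx' (subset_univ _)
  have hrange : LinearMap.range (Submodule.liftQ _ _ hle) =
      Submodule.map (NG G).mkQ (CG (univ : Set M)) := by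
    rw [Submodule.range_liftQ, LinearMap.range_comp, Submodule.range_subtype]
  rw [← hrange]
  exact ⟨inferInstance, LinearMap.finrank_range_le _⟩

theorem ess_zero {M : Type u} [TopologicalSpace M] (y : M) : ¬ Ess y (0 : M → M → ZMod 2) :=
  fun h => h univ Filter.univ_mem (null_zero _)

open Classical in
/-- essentiality as a linear map -/
noncomputable def essLin {V : Type} [AddCommGroup V] [Module (ZMod 2) V] {M : Type u}
    [TopologicalSpace M] (Y : Set M) (W : V →ₗ[ZMod 2] (M → M → ZMod 2))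
    (hadd : ∀ y ∈ Y, ∀ c c', Ess y (W c + W c') ↔ ¬ (Ess y (W c) ↔ Ess y (W c'))) :
    V →ₗ[ZMod 2] (Y → ZMod 2) :=
  AddMonoidHom.toZModLinearMap 2
    { toFun := fun c y => if Ess y.1 (W c) then 1 else 0
      map_zero' := by
        funext y
        rw [map_zero, if_neg (ess_zero _)]
        rfl
      map_add' := by
        intro c c'
        funext y
        show (if Ess y.1 (W (c + c')) then (1 : ZMod 2) else 0) =
          (if Ess y.1 (W c) then 1 else 0) + (if Ess y.1 (W c') then 1 else 0)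
        rw [map_add]
        have h := hadd y.1 y.2 c c'
        have h2 : (0 : ZMod 2) = 1 + 1 := by decide
        by_cases h1 : Ess y.1 (W c)
        · by_cases h3 : Ess y.1 (W c')
          · rw [if_neg (by rw [h]; tauto), if_pos h1, if_pos h3]
            exact h2
          · rw [if_pos (by rw [h]; tauto), if_pos h1, if_neg h3, add_zero]
        · by_cases h3 : Ess y.1 (W c')
          · rw [if_pos (by rw [h]; tauto), if_neg h1, if_pos h3, zero_add]
          · rw [if_neg (by rw [h]; tauto), if_neg h1, if_neg h3, add_zero] }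

open Classical in
theorem essLin_apply {V : Type} [AddCommGroup V] [Module (ZMod 2) V] {M : Type u}
    [TopologicalSpace M] (Y : Set M) (W : V →ₗ[ZMod 2] (M → M → ZMod 2))
    (hadd : ∀ y ∈ Y, ∀ c c', Ess y (W c + W c') ↔ ¬ (Ess y (W c) ↔ Ess y (W c')))
    (c : V) (y : Y) : essLin Y W hadd c y = if Ess y.1 (W c) then 1 else 0 := rfl

/-- there is a point off the graph -/
theorem off_graph (hJ1 : JJump1.{u}) (hA : JArc.{u}) {M : Type u} [TopologicalSpace M]
    [CompactSpace M] [T2Space M] [TopologicalSpace.MetrizableSpace M]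
    [ConnectedSpace M] [LocallyPathConnectedSpace M] {N : ℕ} {f : M → EuclideanSpace ℝ (Fin N)}
    (S : CSetup f) {ι κ : Type} [Finite ι] [Finite κ] {Γ : FGraph M ι κ} (hΓ : Γ.Good) (k : κ) :
    ∃ x, x ∉ Γ.pts := by
  obtain ⟨hpq, hAc, -, -, hcl, -⟩ := hA M (Γ.A k) (Γ.p0 k) (Γ.p1 k) (hΓ.arc k)
  have hne : (Γ.A k \ {Γ.p0 k, Γ.p1 k}).Nonempty := by
    rw [Set.nonempty_iff_ne_empty]
    intro he
    have h1 := hcl (hΓ.arc k).p_mem
    rw [he, closure_empty] at h1
    exact h1
  obtain ⟨m, hm⟩ := hne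
  obtain ⟨B, hB, hBc, hmB, -, hBA, h⟩ := hJ1 M N f S ι κ Γ hΓ k m hm univ Filter.univ_mem
  by_contra hcon
  push Not at hcon
  apply hBA
  rcases (B \ Γ.A k).eq_empty_or_nonempty with he | ⟨x, hx⟩
  · rw [he]
    exact isPreconnected_empty
  · have hall : B \ Γ.A k ⊆ connectedComponentIn (B \ Γ.A k) x := by
      intro x' hx'
      by_contra hne
      refine (h x hx.1 x' hx'.1 hx.2 hx'.2 ?_).1 (hcon x)
      intro he
      apply hne
      rw [he]
      exact mem_connectedComponentIn hx'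
    have e : B \ Γ.A k = connectedComponentIn (B \ Γ.A k) x :=
      Subset.antisymm hall (connectedComponentIn_subset _ _)
    rw [e]
    exact isPreconnected_connectedComponentIn

/-- PB-F -/
theorem euler (hJ1 : JJump1.{u}) (hJ : JJump2.{u}) (hX : JExt.{u}) (hE : JEssAdd.{u})
    (hP : JParity.{u}) (hA : JArc.{u}) : JEuler.{u} := by
  intro M _ _ _ _ _ _ N f S ι κ _ _ Γ hΓ hfin hκ
  classical
  obtain ⟨k0⟩ : Nonempty κ := Fintype.card_pos_iff.1 hκ
  have : Nonempty ι := ⟨Γ.i0 k0⟩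
  obtain ⟨x0, hx0⟩ := off_graph hJ1 hA S hΓ k0
  have hC0 : connectedComponentIn (Γ.pts)ᶜ x0 ∈ comps Γ.pts := ⟨x0, hx0, rfl⟩
  have hpt : ∀ C ∈ comps Γ.pts, ∃ x, x ∈ C := by
    rintro C ⟨x, hx, rfl⟩
    exact ⟨x, mem_connectedComponentIn hx⟩
  choose! g hg using hpt
  obtain ⟨Y, hY⟩ : ∃ Y, Y = g '' comps Γ.pts := ⟨_, rfl⟩
  have hYf : Y.Finite := by rw [hY]; exact hfin.image g
  have hYc : Y.ncard ≤ (comps Γ.pts).ncard := by rw [hY]; exact Set.ncard_image_le hfin
  have hYG : ∀ y ∈ Y, y ∉ Γ.pts := by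
    intro y hy
    rw [hY] at hy
    obtain ⟨C, hC, rfl⟩ := hy
    have h1 := hg C hC
    obtain ⟨x, hx, rfl⟩ := hC
    exact connectedComponentIn_subset _ _ h1
  have hYC : ∀ C ∈ comps Γ.pts, (Y ∩ C).Nonempty := fun C hC =>
    ⟨g C, by rw [hY]; exact ⟨C, hC, rfl⟩, hg C hC⟩
  obtain ⟨y0, hy0, -⟩ := hYC _ hC0
  have hw := hJ M N f S ι κ Γ hΓ Y hYf hYG hYC
  choose w hw1 hw2 using hw
  obtain ⟨W, hW⟩ : ∃ W, W = Fintype.linearCombination (ZMod 2) w := ⟨_, rfl⟩
  have hWa : ∀ c, W c = ∑ k, c k • w k := fun c => by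
    rw [hW, Fintype.linearCombination_apply]
  have hWc : ∀ c, Coc (Yᶜ : Set M) (W c) := by
    intro c
    have h1 : W c ∈ CG (Yᶜ : Set M) := by
      rw [hWa]
      exact Submodule.sum_mem _ fun k _ => Submodule.smul_mem _ _ (hw1 k)
    exact h1
  have hadd : ∀ y ∈ Y, ∀ c c', Ess y (W c + W c') ↔ ¬ (Ess y (W c) ↔ Ess y (W c')) := by
    intro y hy c c'
    have hsub : (Y \ {y})ᶜ \ {y} ⊆ Yᶜ := by
      intro x hx hxY
      exact hx.1 ⟨hxY, hx.2⟩
    exact hE M y (Y \ {y})ᶜ (W c) (W c') (S.pt y) (hYf.subset sdiff_subset).isClosed.isOpen_compl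
      (fun h => h.2 rfl) ((hWc c).mono hsub) ((hWc c').mono hsub)
  have : Fintype Y := hYf.fintype
  have hrank : Module.finrank (ZMod 2) (LinearMap.range (essLin Y W hadd)) + 1 ≤ Y.ncard := by
    have h1 : LinearMap.range (essLin Y W hadd) ≠ ⊤ := by
      intro htop
      have h2 : (Pi.single ⟨y0, hy0⟩ 1 : Y → ZMod 2) ∈ LinearMap.range (essLin Y W hadd) := by
        rw [htop]; exact Submodule.mem_top
      obtain ⟨c, hc⟩ := h2
      have h3 : Ess y0 (W c) := by
        by_contra hne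
        have h4 := congrFun hc ⟨y0, hy0⟩
        rw [essLin_apply, if_neg hne, Pi.single_eq_same] at h4
        exact absurd h4 (by decide)
      refine hP M N f S Y y0 (W c) hYf hy0 (hWc c) ?_ h3
      intro y' hy' hne he
      have h4 := congrFun hc ⟨y', hy'⟩
      rw [essLin_apply, if_pos he, Pi.single_eq_of_ne] at h4
      · exact absurd h4 (by decide)
      · intro h5
        exact hne (congrArg Subtype.val h5)
    have h2 := Submodule.finrank_lt h1
    rw [Module.finrank_fintype_fun_eq_card, ← Nat.card_eq_fintype_card, Nat.card_coe_set_eq] at h2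
    exact h2
  obtain ⟨hRf, hRb⟩ := rank_R S.fin Γ.pts
  have := hRf
  have hR : ∀ v, essLin Y W hadd v = 0 → ((NG Γ.pts).mkQ ∘ₗ W) v ∈
      Submodule.map (NG Γ.pts).mkQ (CG (univ : Set M)) := by
    intro v hv
    have hne : ∀ y ∈ Y, y ∉ (∅ : Set M) → ¬ Ess y (W v) := by
      intro y hy _ he
      have h4 := congrFun hv ⟨y, hy⟩
      rw [essLin_apply, if_pos he] at h4
      have h5 : (1 : ZMod 2) = 0 := h4
      exact absurd h5 (by decide)
    obtain ⟨t', ht', hloc⟩ := hX M Y ∅ (W v) hYf (empty_subset _) (hWc v) hne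
    rw [compl_empty] at ht'
    refine ⟨t', ht', ?_⟩
    show Submodule.Quotient.mk _ = Submodule.Quotient.mk _
    rw [Submodule.Quotient.eq]
    show t' - W v ∈ NG Γ.pts
    rw [z2_sub]
    refine ⟨0, ?_⟩
    intro x hx
    have hxY : x ∉ Y := fun h => hYG x h hx
    obtain ⟨U, hU, hUe⟩ := hloc x hxY
    refine ⟨U, hU, fun a ha b hb => ?_⟩
    show t' a b + W v a b = 0 + 0
    rw [hUe a ha b hb, add_zero]
    exact CharTwo.add_self_eq_zero _
  have hcount := count_lin ((NG Γ.pts).mkQ ∘ₗ W) (essLin Y W hadd) _ hR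
  rw [Module.finrank_fintype_fun_eq_card] at hcount
  have hker : LinearMap.ker ((NG Γ.pts).mkQ ∘ₗ W) ≤ LinearMap.range (cob Γ) := by
    intro c hc
    rw [LinearMap.mem_ker] at hc
    have h1 : (NG Γ.pts).mkQ (W c) = 0 := hc
    rw [Submodule.mkQ_apply, Submodule.Quotient.mk_eq_zero, hWa] at h1
    obtain ⟨τ, hτ⟩ := ker_cob hA hΓ hw2 h1
    exact ⟨τ, funext fun k => (hτ k).symm⟩
  have h5 := Submodule.finrank_mono hker
  have h6 := cob_rank Γ
  omega

end Pool.Agent.Y917.PB
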