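import Pool.Agent.Y217.PB.Stm

/-! Project PB, task R1: components are mapped into flat triangles. -/

set_option autoImplicit false

universe u

namespace Pool.Agent.Y917.PB

open Set Topology Metric
open Pool.Agent.Helper775.Surf Pool.Agent.Helper775.Clo
open Pool.Agent.Y217.PB
open scoped InnerProductSpace

theorem pair_card {α : Type*} (a b : α) : ({a, b} : Set α).ncard ≤ 2 := by
  refine (Set.ncard_insert_le a {b}).trans ?_
  rw [Set.ncard_singleton]

theorem fin_conn {M : Type u} [TopologicalSpace M] [T1Space M] (hp : Punct M) {G : Set M}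
    (hG : IsOpen G) (hc : IsPreconnected G) {P : Set M} (hP : P.Finite) :
    IsOpen (G \ P) ∧ IsPreconnected (G \ P) := by
  induction P, hP using Set.Finite.induction_on with
  | empty => rw [Set.sdiff_empty]; exact ⟨hG, hc⟩
  | @insert a P _ _ ih =>
    obtain ⟨h1, h2⟩ := ih
    have e : G \ insert a P = (G \ P) \ {a} := by
      ext x
      simp only [mem_sdiff, mem_insert_iff, mem_singleton_iff]
      tauto
    rw [e]
    exact ⟨h1.sdiff isClosed_singleton, punct_conn hp h1 h2 a⟩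

theorem box_inf : (BoxI : Set (ℝ × ℝ)).Infinite := by
  refine Set.infinite_of_injective_forall_mem (f := fun n : ℕ => ((1 : ℝ) / (n + 2), (0 : ℝ))) ?_ ?_
  · intro a b h
    have h1 : (1 : ℝ) / (a + 2) = 1 / (b + 2) := congrArg Prod.fst h
    have h2 : (a : ℝ) + 2 = b + 2 := by
      have ha : (a : ℝ) + 2 ≠ 0 := by positivity
      have hb : (b : ℝ) + 2 ≠ 0 := by positivity
      field_simp at h1
      linarith
    have h3 : (a : ℝ) = b := by linarith
    exact_mod_cast h3
  · intro n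
    rw [pst_mem_box]
    have hn : (0 : ℝ) ≤ n := Nat.cast_nonneg n
    constructor
    · show |(1 : ℝ) / (n + 2)| < 1
      rw [abs_of_pos (by positivity), div_lt_one (by positivity)]
      linarith
    · show |(0 : ℝ)| < 1
      rw [abs_zero]
      exact one_pos

theorem open_inf {M : Type u} [TopologicalSpace M] {x : M} (hx : IntPt x) {O : Set M}
    (hO : O ∈ 𝓝 x) : O.Infinite := by
  obtain ⟨D, ψ, φ, hxD, -, hch, hDO⟩ := small_int hx hO
  have hinj : InjOn φ BoxI := by
    intro p hp q hq h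
    rw [← hch.right p hp, ← hch.right q hq, h]
  refine (box_inf.image hinj).mono ?_
  rintro y ⟨p, hp, rfl⟩
  exact hDO (hch.mφ p hp)

theorem convex_cap {N : ℕ} (n e : EuclideanSpace ℝ (Fin N)) (m : ℝ) (he : ⟪n, e⟫_ℝ = m) :
    Convex ℝ {r : EuclideanSpace ℝ (Fin N) | ⟪n, r⟫_ℝ < m ∨ r = e} := by
  intro r hr s hs a b ha hb hab
  show ⟪n, a • r + b • s⟫_ℝ < m ∨ a • r + b • s = e
  have hi : ⟪n, a • r + b • s⟫_ℝ = a * ⟪n, r⟫_ℝ + b * ⟪n, s⟫_ℝ := by
    rw [inner_add_right, inner_smul_right, inner_smul_right]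
  rcases hr with hr | rfl
  · rcases ha.eq_or_lt with h0 | h0
    · have hb1 : b = 1 := by linarith
      rw [← h0, hb1, zero_smul, one_smul, zero_add]
      exact hs
    · left
      rw [hi]
      have hs' : ⟪n, s⟫_ℝ ≤ m := by
        rcases hs with hs | rfl
        · exact le_of_lt hs
        · exact he.le
      have h1 : a * ⟪n, r⟫_ℝ < a * m := mul_lt_mul_of_pos_left hr h0
      have h2 : b * ⟪n, s⟫_ℝ ≤ b * m := mul_le_mul_of_nonneg_left hs' hb
      have h3 : a * m + b * m = m := by rw [← add_mul, hab, one_mul]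
      linarith
  · rcases hs with hs | rfl
    · rcases hb.eq_or_lt with h0 | h0
      · have ha1 : a = 1 := by linarith
        right
        rw [← h0, ha1, zero_smul, one_smul, add_zero]
      · left
        rw [hi, he]
        have h2 : b * ⟪n, s⟫_ℝ < b * m := mul_lt_mul_of_pos_left hs h0
        have h3 : a * m + b * m = m := by rw [← add_mul, hab, one_mul]
        linarith
    · right
      rw [← add_smul, hab, one_smul]

/-- an extreme point on a segment is an end point -/
theorem ext_seg {N : ℕ} {K : Set (EuclideanSpace ℝ (Fin N))} {x a b : EuclideanSpace ℝ (Fin N)}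
    (hx : x ∈ extremePoints ℝ K) (ha : a ∈ K) (hb : b ∈ K) (h : x ∈ segment ℝ a b) :
    x = a ∨ x = b := by
  by_contra hcon
  push Not at hcon
  have h1 := mem_openSegment_of_ne_left_right (Ne.symm hcon.1) (Ne.symm hcon.2) h
  rw [mem_extremePoints_iff_left] at hx
  exact hcon.1 (hx.2 a ha b hb h1).symm

/-- points of an edge which are in the hull of extreme points, one end point of the edge not being
among them -/
theorem edge_hull {M : Type u} [TopologicalSpace M] {N : ℕ} {f : M → EuclideanSpace ℝ (Fin N)}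
    {a b : EuclideanSpace ℝ (Fin N)} (h : Edge f a b) {X : Set (EuclideanSpace ℝ (Fin N))}
    (hX : X ⊆ extremePoints ℝ (Hul f)) (ha : a ∉ X) {q : EuclideanSpace ℝ (Fin N)}
    (hq : q ∈ segment ℝ a b) (hqX : q ∈ convexHull ℝ X) : q = b := by
  obtain ⟨n, m, hna, hnb, -, -, hH⟩ := edge_fun h
  have haH : a ∈ Hul f := (edge_ext h).1
  have hbH : b ∈ Hul f := (edge_ext h.symm).1
  have hqH : q ∈ Hul f := (convex_convexHull ℝ (range f)).segment_subset haH hbH hq
  have hsub : X ⊆ {r | ⟪n, r⟫_ℝ < m ∨ r = b} := by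
    intro r hr
    have hrH : r ∈ Hul f := (hX hr).1
    rcases (hH r hrH).1.lt_or_eq with h1 | h1
    · exact Or.inl h1
    · right
      rcases ext_seg (hX hr) haH hbH ((hH r hrH).2.1 h1) with h2 | h2
      · rw [h2] at hr
        exact absurd hr ha
      · exact h2
  have h1 := convexHull_min hsub (convex_cap n b m hnb) hqX
  rcases h1 with h1 | h1
  · exact absurd ((hH q hqH).2.2 hq) h1.ne
  · exact h1

/-- the complement of a component: closure points off the component are on the graph -/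
theorem comp_open {M : Type u} [TopologicalSpace M] [LocallyPathConnectedSpace M] {G : Set M}
    (hG : IsClosed G) {C : Set M} (hC : C ∈ comps G) :
    IsOpen C ∧ C ⊆ Gᶜ ∧ ∀ y ∈ closure C, y ∉ C → y ∈ G := by
  obtain ⟨x, hx, rfl⟩ := hC
  refine ⟨hG.isOpen_compl.connectedComponentIn, connectedComponentIn_subset _ _, ?_⟩
  intro y hy hyC
  by_contra hyG
  have h1 : IsOpen (connectedComponentIn Gᶜ y) := hG.isOpen_compl.connectedComponentIn
  have h2 : y ∈ connectedComponentIn Gᶜ y := mem_connectedComponentIn hyG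
  obtain ⟨z, hz1, hz2⟩ := mem_closure_iff.1 hy _ h1 h2
  have e1 := connectedComponentIn_eq hz1
  have e2 := connectedComponentIn_eq hz2
  rw [e2, ← e1] at hyC
  exact hyC h2

/-- some edge does not join two of three given vertices -/
theorem edge_off {M : Type u} [TopologicalSpace M] {ι κ : Type} {Γ : FGraph M ι κ} (hΓ : Γ.Good)
    (hκ : 4 ≤ Nat.card κ) (i₁ i₂ i₃ : ι) :
    ∃ k, ¬ ((Γ.i0 k = i₁ ∨ Γ.i0 k = i₂ ∨ Γ.i0 k = i₃) ∧
      (Γ.i1 k = i₁ ∨ Γ.i1 k = i₂ ∨ Γ.i1 k = i₃)) := by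
  by_contra hcon
  push Not at hcon
  have hsub : Set.range (fun k => ({Γ.i0 k, Γ.i1 k} : Set ι)) ⊆
      ({{i₁, i₂}, {i₂, i₃}, {i₃, i₁}} : Set (Set ι)) := by
    rintro _ ⟨k, rfl⟩
    obtain ⟨h0, h1⟩ := hcon k
    have hne := hΓ.loopless k
    simp only [mem_insert_iff, mem_singleton_iff]
    rcases h0 with h0 | h0 | h0 <;> rcases h1 with h1 | h1 | h1 <;> rw [h0, h1] at hne ⊢
    · exact absurd rfl hne
    · exact Or.inl rfl
    · exact Or.inr (Or.inr (Set.pair_comm _ _))
    · exact Or.inl (Set.pair_comm _ _)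
    · exact absurd rfl hne
    · exact Or.inr (Or.inl rfl)
    · exact Or.inr (Or.inr rfl)
    · exact Or.inr (Or.inl (Set.pair_comm _ _))
    · exact absurd rfl hne
  have hinj : Function.Injective (fun k => ({Γ.i0 k, Γ.i1 k} : Set ι)) := fun k l h =>
    hΓ.simple k l h
  have h1 : (Set.range (fun k => ({Γ.i0 k, Γ.i1 k} : Set ι))).ncard = Nat.card κ := by
    rw [← Set.image_univ, Set.ncard_image_of_injective _ hinj, Set.ncard_univ]
  have h2 := Set.ncard_le_ncard hsub (Set.toFinite _)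
  have h3 : ({{i₁, i₂}, {i₂, i₃}, {i₃, i₁}} : Set (Set ι)).ncard ≤ 3 := by
    refine (Set.ncard_insert_le _ _).trans ?_
    have := pair_card ({i₂, i₃} : Set ι) {i₃, i₁}
    omega
  omega

/-- PB-R1 -/
theorem face (hA : JArc.{u}) : JFace.{u} := by
  intro M _ _ _ _ _ _ N f S hN hext hcard Γ hΓ C hC i₁ i₂ i₃ hadj x hxC
  obtain ⟨X, hX⟩ : ∃ X : Set (EuclideanSpace ℝ (Fin N)), X = {i₁.1, i₂.1, i₃.1} := ⟨_, rfl⟩
  rw [← hX]
  have h1X : i₁.1 ∈ X := by rw [hX]; exact Or.inl rfl
  have h2X : i₂.1 ∈ X := by rw [hX]; exact Or.inr (Or.inl rfl)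
  have h3X : i₃.1 ∈ X := by rw [hX]; exact Or.inr (Or.inr rfl)
  have hXf : X.Finite := by rw [hX]; exact Set.toFinite _
  have hXe : X ⊆ extremePoints ℝ (Hul f) := by
    rw [hX]
    rintro r (rfl | rfl | rfl)
    · exact i₁.2
    · exact i₂.2
    · exact i₃.2
  -- the complement of the triangle
  obtain ⟨H, hHdef⟩ : ∃ H : Set M, H = {x | f x ∉ convexHull ℝ X} := ⟨_, rfl⟩
  have hHc : IsPreconnected H := by
    rw [hHdef]
    obtain ⟨V, hV⟩ : ∃ V : Submodule ℝ (EuclideanSpace ℝ (Fin N)),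
      V = Submodule.span ℝ {i₂.1 - i₁.1, i₃.1 - i₁.1} := ⟨_, rfl⟩
    have hd : Module.finrank ℝ V ≤ 2 := by
      rw [hV]
      have h1 := finrank_span_le_card (R := ℝ)
        ({i₂.1 - i₁.1, i₃.1 - i₁.1} : Set (EuclideanSpace ℝ (Fin N)))
      refine h1.trans ?_
      rw [← Set.ncard_eq_toFinset_card']
      exact pair_card _ _
    have hp : ∀ p ∈ X, p - i₁.1 ∈ V := by
      rw [hX, hV]
      rintro p (rfl | rfl | rfl)
      · rw [sub_self]; exact Submodule.zero_mem _
      · exact Submodule.subset_span (Or.inl rfl)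
      · exact Submodule.subset_span (Or.inr rfl)
    refine aplus S.cont S.conn S.sub hXf ⟨_, h1X⟩ V ?_ (by omega)
    intro p hp' q hq'
    have := V.sub_mem (hp q hq') (hp p hp')
    rwa [sub_sub_sub_cancel_right] at this
  have hTc : IsClosed (convexHull ℝ X) := (hXf.isCompact_convexHull ℝ).isClosed
  have hHo : IsOpen H := by
    rw [hHdef]
    exact (hTc.preimage S.cont).isOpen_compl
  -- the vertices
  obtain ⟨P, hPdef⟩ : ∃ P : Set M, P = ⋃ i, Γ.Z i := ⟨_, rfl⟩
  have hPf : P.Finite := by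
    rw [hPdef]
    have : Finite (extremePoints ℝ (Hul f)) := hext
    refine Set.finite_iUnion fun i => ?_
    obtain ⟨z, hz, hz2⟩ := ext_unique S.cont S.loc S.conn i.2
    rw [hΓ.hZ i]
    exact (Set.finite_singleton z).subset fun y hy => hz2 y hy
  have hZP : ∀ i, Γ.Z i ⊆ P := fun i y hy => by rw [hPdef]; exact mem_iUnion.2 ⟨i, hy⟩
  obtain ⟨hH'o, hH'c⟩ := fin_conn S.pun hHo hHc hPf
  -- the graph is closed
  have hfinE : Finite (EdgeT f) := Nat.finite_of_card_ne_zero (by omega)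
  have hGc : IsClosed Γ.pts := by
    refine IsClosed.union ?_ ?_
    · rw [← hPdef]; exact hPf.isClosed
    · exact isClosed_iUnion_of_finite fun k => (hΓ.good.arc k).closed
  obtain ⟨hCo, hCG, hCcl⟩ := comp_open hGc hC
  have hopn : ∀ k, ∀ y ∈ Γ.opn k, y ∉ P := by
    intro k y hy hyP
    rw [hPdef, mem_iUnion] at hyP
    obtain ⟨i, hi⟩ := hyP
    exact hy.2 (hΓ.good.inter k i y hy.1 hi)
  have hseg : ∀ k, ∀ y ∈ Γ.A k, f y ∈ segment ℝ (Γ.i0 k).1 (Γ.i1 k).1 := by
    intro k y hy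
    rw [hΓ.hA k] at hy
    rw [← hΓ.seg k]
    exact hy
  -- closure points
  have hkey : ∀ y ∈ H \ P, y ∈ closure C → y ∈ C := by
    intro y hy hyc
    by_contra hyC
    have hyG := hCcl y hyc hyC
    rcases hyG with hyG | hyG
    · exact hy.2 (by rw [hPdef]; exact hyG)
    · obtain ⟨k, hk⟩ := mem_iUnion.1 hyG
      have hyo : y ∈ Γ.opn k := by
        refine ⟨hk, ?_⟩
        rintro (rfl | h)
        · exact hy.2 (hZP _ (hΓ.good.m0 k))
        · rw [mem_singleton_iff] at h
          rw [h] at hy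
          exact hy.2 (hZP _ (hΓ.good.m1 k))
      obtain ⟨h0, h1⟩ := hadj k ⟨y, hyc, hyo⟩
      have hm0 : (Γ.i0 k).1 ∈ X := by
        rcases h0 with h | h | h <;> rw [h] <;> assumption
      have hm1 : (Γ.i1 k).1 ∈ X := by
        rcases h1 with h | h | h <;> rw [h] <;> assumption
      have hyH : f y ∉ convexHull ℝ X := by
        have := hy.1
        rw [hHdef] at this
        exact this
      exact hyH ((convex_convexHull ℝ X).segment_subset (subset_convexHull ℝ X hm0)
        (subset_convexHull ℝ X hm1) (hseg k y hk))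
  -- an edge away from the triangle
  obtain ⟨k, hk⟩ := edge_off hΓ.good hcard i₁ i₂ i₃
  have hoff : ∀ y ∈ Γ.opn k, y ∈ H := by
    intro y hy
    rw [hHdef]
    intro hyT
    have hys := hseg k y hy.1
    have hnot : ∀ j : extremePoints ℝ (Hul f), ¬ (j = i₁ ∨ j = i₂ ∨ j = i₃) → j.1 ∉ X := by
      intro j hj hjX
      apply hj
      rw [hX] at hjX
      rcases hjX with h | h | h
      · exact Or.inl (Subtype.ext h)
      · exact Or.inr (Or.inl (Subtype.ext h))
      · exact Or.inr (Or.inr (Subtype.ext h))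
    have hend : f y = (Γ.i1 k).1 ∨ f y = (Γ.i0 k).1 := by
      by_cases h0 : Γ.i0 k = i₁ ∨ Γ.i0 k = i₂ ∨ Γ.i0 k = i₃
      · have h1 : ¬ (Γ.i1 k = i₁ ∨ Γ.i1 k = i₂ ∨ Γ.i1 k = i₃) := fun h1 => hk ⟨h0, h1⟩
        right
        refine edge_hull (hΓ.edge k).symm hXe (hnot _ h1) ?_ hyT
        rw [segment_symm]
        exact hys
      · left
        exact edge_hull (hΓ.edge k) hXe (hnot _ h0) hys hyT
    rcases hend with h | h
    · exact hopn k y hy (hZP (Γ.i1 k) (by rw [hΓ.hZ]; exact h))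
    · exact hopn k y hy (hZP (Γ.i0 k) (by rw [hΓ.hZ]; exact h))
  have hne : (Γ.opn k).Nonempty := by
    obtain ⟨-, -, -, -, hcl, -⟩ := hA M (Γ.A k) (Γ.p0 k) (Γ.p1 k) (hΓ.good.arc k)
    rw [Set.nonempty_iff_ne_empty]
    intro he
    have h1 := hcl (hΓ.good.arc k).p_mem
    have he' : Γ.A k \ {Γ.p0 k, Γ.p1 k} = ∅ := he
    rw [he', closure_empty] at h1
    exact h1
  obtain ⟨y0, hy0⟩ := hne
  have hy0H : y0 ∈ H \ P := ⟨hoff y0 hy0, hopn k y0 hy0⟩
  have hy0C : y0 ∉ C := fun h => hCG h (Or.inr (mem_iUnion.2 ⟨k, hy0.1⟩))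
  have hdisj : ∀ z ∈ H \ P, z ∉ C := by
    intro z hz hzC
    have hcov : H \ P ⊆ C ∪ (closure C)ᶜ := by
      intro y hy
      by_cases h : y ∈ closure C
      · exact Or.inl (hkey y hy h)
      · exact Or.inr h
    have hd : Disjoint C (closure C)ᶜ := by
      rw [Set.disjoint_left]
      intro y h1 h2
      exact h2 (subset_closure h1)
    exact hy0C (hH'c.subset_left_of_subset_union hCo isClosed_closure.isOpen_compl hd hcov
      ⟨z, hz, hzC⟩ hy0H)
  by_contra hxT
  have hxH : x ∈ H := by rw [hHdef]; exact hxT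
  have hinf := open_inf (S.pt x) ((hCo.inter hHo).mem_nhds ⟨hxC, hxH⟩)
  obtain ⟨z, hz⟩ := (hinf.sdiff hPf).nonempty
  exact hdisj z ⟨hz.1.2, hz.2⟩ hz.1.1

end Pool.Agent.Y917.PB
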